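import Pool.Agent.CPT.StmtsD

/-!
# CPT, row LFT: extension of the field
-/

set_option autoImplicit false

namespace Pool.Agent.CPT.H95

open MvPolynomial Pool.Agent.BSH

theorem lft_sp (E E' : Type) [Field E] [Field E'] [Algebra E E'] (n : ℕ)
    (l : List (MvPolynomial (Fin n) E)) (F : MvPolynomial (Fin n) E)
    (hF : F ∈ sp E (Set.range X) l) :
    map (algebraMap E E') F ∈ sp E' (Set.range X) (l.map (map (algebraMap E E'))) := by
  refine Submodule.span_induction (p := fun x _ => map (algebraMap E E') x ∈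
    sp E' (Set.range X) (l.map (map (algebraMap E E')))) ?_ ?_ ?_ ?_ hF
  · rintro x ((hx | hx) | hx)
    · have h1 : x = 1 := hx
      rw [h1, map_one]
      exact Submodule.subset_span (Or.inl (Or.inl rfl))
    · obtain ⟨i, rfl⟩ := hx
      rw [map_X]
      exact Submodule.subset_span (Or.inl (Or.inr ⟨i, rfl⟩))
    · exact Submodule.subset_span (Or.inr (List.mem_map_of_mem hx))
  · rw [map_zero]
    exact Submodule.zero_mem _
  · intro x y _ _ hx hy
    rw [map_add]
    exact Submodule.add_mem _ hx hy
  · intro c x _ hx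
    rw [smul_eq_C_mul, map_mul, map_C, ← smul_eq_C_mul]
    exact Submodule.smul_mem _ _ hx

theorem lft : LftStmt := by
  intro E E' _ _ _ n s F hF
  obtain ⟨l, hl, hc, hF⟩ := hF
  refine ⟨l.map (map (algebraMap E E')), by rwa [List.length_map], ?_, lft_sp E E' n l F hF⟩
  clear hF hl
  induction l with
  | nil => trivial
  | cons g l ih =>
    obtain ⟨h1, a, ha, b, hb, hg⟩ := hc
    refine ⟨ih h1, _, lft_sp E E' n l a ha, _, lft_sp E E' n l b hb, ?_⟩
    rw [hg, map_mul]

end Pool.Agent.CPT.H95
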