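import Pool.Agent.CPT.StmtsA

/-!
# CPT, row QDT: a Vandermonde type determinant
-/

set_option autoImplicit false

namespace Pool.Agent.CPT.H95

open Polynomial

/-- strict rearrangement -/
theorem rearr {ρ : ℕ} {d : Fin ρ → ℕ} (hd : StrictMono d) (σ : Equiv.Perm (Fin ρ)) (hσ : σ ≠ 1) :
    ∑ j : Fin ρ, ((j : ℕ) + 1) * d (σ j) < ∑ j : Fin ρ, ((j : ℕ) + 1) * d j := by
  have hf : Monotone fun j : Fin ρ => (j : ℕ) + 1 := fun i j h => Nat.succ_le_succ h
  have hmono : Monovary (fun j : Fin ρ => (j : ℕ) + 1) d := by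
    intro i j hij
    exact hf (hd.lt_iff_lt.1 hij).le
  rw [hmono.sum_mul_comp_perm_lt_sum_mul_iff]
  intro h
  apply hσ
  have h1 : Monotone σ.symm := by
    intro i j hij
    rcases hij.eq_or_lt with h2 | h2
    · rw [h2]
    · have h3 : (d ∘ σ) (σ.symm i) < (d ∘ σ) (σ.symm j) := by
        simp only [Function.comp_apply, Equiv.apply_symm_apply]
        exact hd h2
      have h4 := h h3
      simp only at h4
      rw [Fin.le_def]
      omega
  have h2 : StrictMono σ.symm := h1.strictMono_of_injective σ.symm.injective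
  have h3 : (σ.symm : Fin ρ → Fin ρ) = id :=
    (StrictMono.range_inj h2 strictMono_id).1 (by rw [σ.symm.range_eq_univ, Set.range_id])
  refine Equiv.ext fun i => ?_
  have h4 := congrFun h3 (σ i)
  rw [Equiv.symm_apply_apply] at h4
  exact h4.symm

theorem natDegree_comp_pow {E : Type} [Field E] (b : E[X]) (j : ℕ) :
    (b.comp (X ^ (j + 1))).natDegree = (j + 1) * b.natDegree := by
  rw [natDegree_comp, natDegree_X_pow, mul_comm]

theorem comp_pow_ne_zero {E : Type} [Field E] (b : E[X]) (hb : b ≠ 0) (j : ℕ) :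
    b.comp (X ^ (j + 1)) ≠ 0 := by
  rw [← expand_eq_comp_X_pow]
  exact (expand_ne_zero (Nat.succ_pos j)).2 hb

theorem det_ne_zero {E : Type} [Field E] {ρ : ℕ} (b : Fin ρ → E[X]) (h0 : ∀ k, b k ≠ 0)
    (hd : StrictMono fun k => (b k).natDegree) :
    (Matrix.of fun k j : Fin ρ => (b k).comp (X ^ ((j : ℕ) + 1))).det ≠ 0 := by
  intro h
  have h1 := congrArg (fun P => P.coeff (∑ j : Fin ρ, ((j : ℕ) + 1) * (b j).natDegree)) h
  simp only [coeff_zero] at h1
  rw [Matrix.det_apply, finsetSum_coeff, Finset.sum_eq_single 1] at h1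
  · rw [Equiv.Perm.sign_one, one_smul] at h1
    simp only [Matrix.of_apply, Equiv.Perm.one_apply] at h1
    have h2 : (∏ j : Fin ρ, (b j).comp (X ^ ((j : ℕ) + 1))).natDegree =
        ∑ j : Fin ρ, ((j : ℕ) + 1) * (b j).natDegree := by
      rw [natDegree_prod _ _ fun j _ => comp_pow_ne_zero _ (h0 j) _]
      exact Finset.sum_congr rfl fun j _ => natDegree_comp_pow _ _
    rw [← h2] at h1
    exact Finset.prod_ne_zero_iff.2 (fun j _ => comp_pow_ne_zero _ (h0 j) _)
      (leadingCoeff_eq_zero.1 h1)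
  · intro σ _ hσ
    rw [coeff_smul]
    have h2 : (∏ j : Fin ρ, (Matrix.of fun k j : Fin ρ => (b k).comp (X ^ ((j : ℕ) + 1)))
        (σ j) j).natDegree < ∑ j : Fin ρ, ((j : ℕ) + 1) * (b j).natDegree := by
      simp only [Matrix.of_apply]
      rw [natDegree_prod _ _ fun j _ => comp_pow_ne_zero _ (h0 _) _]
      rw [Finset.sum_congr rfl fun j _ => natDegree_comp_pow _ _]
      exact rearr hd σ hσ
    rw [coeff_eq_zero_of_natDegree_lt h2, smul_zero]
  · intro h2
    exact absurd (Finset.mem_univ _) h2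

theorem qdt (deg : DegStmt) : QdtStmt := by
  intro E _ _ ρ n A hA
  let Φ : (Fin n → E) →ₗ[E] E[X] := ∑ i : Fin n, (monomial (i : ℕ)).comp (LinearMap.proj i)
  have hΦ : ∀ v, Φ v = ∑ i : Fin n, monomial (i : ℕ) (v i) := by
    intro v
    simp [Φ]
  have hcoef : ∀ v (i : Fin n), (Φ v).coeff i = v i := by
    intro v i
    rw [hΦ, finsetSum_coeff, Finset.sum_eq_single i]
    · rw [coeff_monomial, if_pos rfl]
    · intro j _ hj
      rw [coeff_monomial, if_neg]
      exact fun h => hj (Fin.ext h)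
    · intro h
      exact absurd (Finset.mem_univ _) h
  have hker : LinearMap.ker Φ = ⊥ := by
    rw [LinearMap.ker_eq_bot']
    intro v hv
    funext i
    rw [← hcoef v i, hv, coeff_zero]
    rfl
  have ha : LinearIndependent E (fun k => Φ (A k)) := hA.map' Φ hker
  obtain ⟨b, hbW, hb0, hbd⟩ := deg E ρ (Submodule.span E (Set.range fun k => Φ (A k)))
    (Module.Finite.span_of_finite E (Set.finite_range _))
    (by rw [finrank_span_eq_card ha, Fintype.card_fin])
  have hP : ∀ k, ∃ P : Fin ρ → E, ∑ l, P l • Φ (A l) = b k := fun k =>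
    Submodule.mem_span_range_iff_exists_fun E |>.1 (hbW k)
  choose P hP using hP
  set Ma : Matrix (Fin ρ) (Fin ρ) E[X] :=
    Matrix.of fun k j : Fin ρ => (Φ (A k)).comp (X ^ ((j : ℕ) + 1)) with hMa
  have hmul : (Matrix.of fun k j : Fin ρ => (b k).comp (X ^ ((j : ℕ) + 1))) =
      (Matrix.of fun k l => C (P k l)) * Ma := by
    ext1 k j
    rw [Matrix.mul_apply, hMa]
    simp only [Matrix.of_apply]
    rw [← hP k]
    simp only [smul_eq_C_mul]
    rw [← coe_compRingHom_apply, map_sum]
    refine Finset.sum_congr rfl fun l _ => ?_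
    rw [coe_compRingHom_apply, mul_comp, C_comp]
  have hQ : Ma.det ≠ 0 := by
    intro h
    apply det_ne_zero b hb0 hbd
    rw [hmul, Matrix.det_mul, h, mul_zero]
  have hΦd : ∀ v, (Φ v).natDegree ≤ n := by
    intro v
    rw [hΦ]
    exact natDegree_sum_le_of_forall_le _ _ fun i _ =>
      (natDegree_monomial_le _).trans i.2.le
  have hQd : Ma.det.natDegree ≤ n * ρ ^ 2 := by
    rw [Matrix.det_apply]
    refine natDegree_sum_le_of_forall_le _ _ fun σ _ => ?_
    refine (natDegree_smul_le _ _).trans ?_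
    refine (natDegree_prod_le _ _).trans ?_
    have h1 : ∀ j ∈ (Finset.univ : Finset (Fin ρ)), (Ma (σ j) j).natDegree ≤ n * ρ := by
      intro j _
      rw [hMa, Matrix.of_apply, natDegree_comp_pow, mul_comm]
      exact Nat.mul_le_mul (hΦd _) j.2
    refine (Finset.sum_le_sum h1).trans ?_
    rw [Finset.sum_const, Finset.card_univ, Fintype.card_fin, smul_eq_mul]
    exact (by ring : ρ * (n * ρ) = n * ρ ^ 2).le
  by_contra hcon
  push Not at hcon
  apply hQ
  classical
  refine eq_zero_of_natDegree_lt_card_of_eval_eq_zero' Ma.det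
    ((Finset.range (n * ρ ^ 2 + 1)).image (fun t : ℕ => (t : E))) ?_ ?_
  · intro x hx
    obtain ⟨t, ht, rfl⟩ := Finset.mem_image.1 hx
    have h1 := hcon t (Nat.lt_succ_iff.1 (Finset.mem_range.1 ht))
    rw [← coe_evalRingHom, RingHom.map_det, ← h1]
    congr 1
    ext1 k j
    rw [RingHom.mapMatrix_apply, Matrix.map_apply, hMa]
    simp only [Matrix.of_apply]
    rw [coe_evalRingHom, eval_comp, hΦ, eval_finsetSum]
    refine Finset.sum_congr rfl fun i _ => ?_
    rw [eval_monomial, eval_pow, eval_X, ← pow_mul, mul_comm ((j : ℕ) + 1)]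
  · rw [Finset.card_image_of_injective _ Nat.cast_injective, Finset.card_range]
    omega

end Pool.Agent.CPT.H95
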