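import Pool.Agent.CPT.StmtsB

/-!
# CPT, row FRB: the integral closure of `κ[X]` is free, independence over `κ(u)`
-/

set_option autoImplicit false

namespace Pool.Agent.CPT.H95

open Polynomial

/-- independence modulo `g` -/
theorem indep_mod {κ B : Type} [Field κ] [CommRing B] [Algebra κ[X] B] {ν N a : ℕ}
    (b : Module.Basis (Fin ν) κ[X] B) (h : N ≤ ν) (g : κ[X]) (hg : g.natDegree = a)
    (c : Fin a × Fin N → κ) (β : B)
    (heq : ∑ t, (C (c t) : κ[X]) • ((X ^ (t.1 : ℕ) : κ[X]) • b (Fin.castLE h t.2)) = g • β) :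
    ∀ t, c t = 0 := by
  classical
  rintro ⟨i, j⟩
  have h1 := congrArg (fun w => b.repr w (Fin.castLE h j)) heq
  simp only [map_sum, map_smul, Module.Basis.repr_self, Finsupp.coe_finsetSum, Finset.sum_apply,
    Finsupp.smul_apply, smul_eq_mul, Finsupp.coe_smul, Pi.smul_apply] at h1
  rw [Fintype.sum_prod_type] at h1
  have h2 : ∀ i' : Fin a, ∑ j' : Fin N, C (c (i', j')) * (X ^ (i' : ℕ) *
      (Finsupp.single (Fin.castLE h j') (1 : κ[X])) (Fin.castLE h j)) =
      C (c (i', j)) * X ^ (i' : ℕ) := by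
    intro i'
    rw [Finset.sum_eq_single j]
    · rw [Finsupp.single_eq_same, mul_one]
    · intro j' _ hj'
      rw [Finsupp.single_eq_of_ne, mul_zero, mul_zero]
      intro h3
      exact hj' (Fin.castLE_injective h h3).symm
    · intro h3
      exact absurd (Finset.mem_univ j) h3
  rw [Finset.sum_congr rfl fun i' _ => h2 i'] at h1
  have ha : 0 < a := i.pos
  have hdeg : (∑ i' : Fin a, C (c (i', j)) * X ^ (i' : ℕ)).degree < g.degree := by
    have hg0 : g ≠ 0 := by
      rintro rfl
      rw [natDegree_zero] at hg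
      omega
    rw [degree_eq_natDegree hg0, hg]
    refine (degree_sum_fin_lt (fun i' : Fin a => c (i', j)))
  have h3 : ∑ i' : Fin a, C (c (i', j)) * X ^ (i' : ℕ) = 0 :=
    eq_zero_of_dvd_of_degree_lt ⟨_, h1⟩ hdeg
  have h4 := congrArg (fun P => P.coeff (i : ℕ)) h3
  simp only [finsetSum_coeff, coeff_C_mul, coeff_X_pow, coeff_zero] at h4
  rw [Finset.sum_eq_single i] at h4
  · simpa using h4
  · intro i' _ hi'
    rw [if_neg, mul_zero]
    exact fun h5 => hi' (Fin.ext h5.symm)
  · intro h5
    exact absurd (Finset.mem_univ i) h5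

/-- the top coefficients vanish -/
theorem top_zero {κ B K : Type} [Field κ] [CommRing B] [Algebra κ[X] B] [Field K] [Algebra κ[X] K]
    [Algebra B K] [IsScalarTower κ[X] B K] (hinj : Function.Injective (algebraMap B K))
    {ι : Type} [Fintype ι] (E : ι → B) (g f : κ[X]) (hfg : IsCoprime f g)
    (hE : ∀ (c : ι → κ) (β : B), ∑ t, (C (c t) : κ[X]) • E t = g • β → ∀ t, c t = 0)
    (u : K) (y : B) (hu : algebraMap κ[X] K f = algebraMap κ[X] K g * algebraMap B K y * u)
    (d : ℕ) (P : ι → κ[X]) (hP : ∀ k m, d < m → (P k).coeff m = 0)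
    (h0 : ∑ k, algebraMap B K (E k) * (P k).eval₂ ((algebraMap κ[X] K).comp C) u = 0) :
    ∀ k, (P k).coeff d = 0 := by
  set φ := algebraMap κ[X] K with hφ
  set ψ := algebraMap κ[X] B with hψ
  set j := algebraMap B K with hj
  have hφψ : ∀ q, φ q = j (ψ q) := fun q => IsScalarTower.algebraMap_apply κ[X] B K q
  set G : B := ψ g * y with hG
  have hGu : j G * u = j (ψ f) := by
    rw [hG, map_mul, ← hφψ, ← hφψ, ← hu]
  have hev : ∀ k, (P k).eval₂ (φ.comp C) u =
      ∑ r ∈ Finset.range (d + 1), j (ψ (C ((P k).coeff r))) * u ^ r := by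
    intro k
    rw [eval₂_eq_sum_range' _ (n := d + 1)
      (Nat.lt_succ_of_le (natDegree_le_iff_coeff_eq_zero.2 fun m hm => hP k m hm))]
    refine Finset.sum_congr rfl fun r _ => ?_
    rw [RingHom.comp_apply, hφψ]
  have hS : ∑ k, E k * ∑ r ∈ Finset.range (d + 1),
      ψ (C ((P k).coeff r) * f ^ r) * G ^ (d - r) = 0 := by
    apply hinj
    rw [map_zero, map_sum]
    have h1 : ∀ k, j (E k * ∑ r ∈ Finset.range (d + 1),
        ψ (C ((P k).coeff r) * f ^ r) * G ^ (d - r)) =
        j G ^ d * (j (E k) * (P k).eval₂ (φ.comp C) u) := by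
      intro k
      rw [hev, map_mul, map_sum, Finset.mul_sum, Finset.mul_sum, Finset.mul_sum]
      refine Finset.sum_congr rfl fun r hr => ?_
      have hr' : r ≤ d := Nat.lt_succ_iff.1 (Finset.mem_range.1 hr)
      have h2 : j G ^ d * u ^ r = j G ^ (d - r) * j (ψ f) ^ r := by
        rw [← hGu, mul_pow, ← mul_assoc, ← pow_add, Nat.sub_add_cancel hr']
      rw [map_mul, map_mul, map_mul, map_pow, map_pow, map_pow]
      linear_combination -(j (E k) * j (ψ (C ((P k).coeff r)))) * h2
    rw [Finset.sum_congr rfl fun k _ => h1 k, ← Finset.mul_sum, h0, mul_zero]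
  set V : B := ∑ k, ψ (C ((P k).coeff d)) * E k with hV
  set W : B := ∑ k, E k * ∑ r ∈ Finset.range d,
    ψ (C ((P k).coeff r) * f ^ r) * (y * G ^ (d - r - 1)) with hW
  have hVW : ψ (f ^ d) * V + ψ g * W = 0 := by
    rw [← hS, hV, hW, Finset.mul_sum, Finset.mul_sum, ← Finset.sum_add_distrib]
    refine Finset.sum_congr rfl fun k _ => ?_
    rw [Finset.sum_range_succ, Nat.sub_self, pow_zero, mul_one]
    have h1 : ∑ r ∈ Finset.range d, ψ (C ((P k).coeff r) * f ^ r) * G ^ (d - r) =
        ψ g * ∑ r ∈ Finset.range d, ψ (C ((P k).coeff r) * f ^ r) * (y * G ^ (d - r - 1)) := by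
      rw [Finset.mul_sum]
      refine Finset.sum_congr rfl fun r hr => ?_
      have hr' := Finset.mem_range.1 hr
      have h2 : G ^ (d - r) = ψ g * (y * G ^ (d - r - 1)) := by
        rw [← mul_assoc, ← hG, ← pow_succ']
        congr 1
        omega
      rw [h2]
      ring
    rw [h1, map_mul]
    ring
  obtain ⟨s, t, hst⟩ : IsCoprime (f ^ d) g := hfg.pow_left
  have hst' : ψ s * ψ (f ^ d) + ψ t * ψ g = 1 := by
    rw [← map_mul, ← map_mul, ← map_add, hst, map_one]
  refine hE (fun k => (P k).coeff d) (-(ψ s * W) + ψ t * V) ?_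
  have h3 : ∑ k, (C ((P k).coeff d) : κ[X]) • E k = V := by
    rw [hV]
    exact Finset.sum_congr rfl fun k _ => Algebra.smul_def _ _
  rw [h3, Algebra.smul_def]
  show V = ψ g * (-(ψ s * W) + ψ t * V)
  linear_combination (-V) * hst' + ψ s * hVW

theorem frb : FrbStmt := by
  intro κ K _ _ _ _ _ _ _ N a m hm g f hg hfg u y hu hy hfy
  have hsep : Algebra.IsSeparable (FractionRing κ[X]) K := inferInstance
  have htf : Module.IsTorsionFree κ[X] K := .trans_faithfulSMul κ[X] (FractionRing κ[X]) K
  let B := integralClosure κ[X] K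
  have hfree : Module.Free κ[X] B := IsIntegralClosure.module_free κ[X] (FractionRing κ[X]) K B
  have hfin : Module.Finite κ[X] B := IsIntegralClosure.finite κ[X] (FractionRing κ[X]) K B
  have hrank : Module.finrank κ[X] B = Module.finrank (FractionRing κ[X]) K :=
    IsIntegralClosure.rank κ[X] (FractionRing κ[X]) K B
  have hN : N ≤ Module.finrank κ[X] B := by
    have h1 : LinearIndependent κ[X] m := by
      rw [Fintype.linearIndependent_iff]
      intro q hq i
      have h2 := hm q (by
        rw [← hq]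
        refine Finset.sum_congr rfl fun i _ => ?_
        rw [Algebra.smul_def, mul_comm])
      rw [h2]
      rfl
    rw [LinearIndependent.iff_fractionRing κ[X] (FractionRing κ[X])] at h1
    have h2 := h1.fintype_card_le_finrank
    rw [Fintype.card_fin] at h2
    rw [hrank]
    exact h2
  let b := Module.finBasis κ[X] B
  let E : Fin (a * N) → B := fun k =>
    (X ^ ((finProdFinEquiv.symm k).1 : ℕ) : κ[X]) • b (Fin.castLE hN (finProdFinEquiv.symm k).2)
  refine ⟨fun k => (E k : K), ?_⟩
  intro p h0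
  have hE : ∀ (c : Fin (a * N) → κ) (β : B), ∑ t, (C (c t) : κ[X]) • E t = g • β →
      ∀ t, c t = 0 := by
    intro c β hc t
    have h1 : ∑ t : Fin a × Fin N, (C (c (finProdFinEquiv t)) : κ[X]) •
        ((X ^ (t.1 : ℕ) : κ[X]) • b (Fin.castLE hN t.2)) = g • β := by
      rw [← hc, ← Equiv.sum_comp finProdFinEquiv]
      refine Finset.sum_congr rfl fun t _ => ?_
      show _ = (C (c (finProdFinEquiv t)) : κ[X]) •
        ((X ^ ((finProdFinEquiv.symm (finProdFinEquiv t)).1 : ℕ) : κ[X]) •
          b (Fin.castLE hN (finProdFinEquiv.symm (finProdFinEquiv t)).2))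
      rw [Equiv.symm_apply_apply]
    have h2 := indep_mod b hN g hg (fun t => c (finProdFinEquiv t)) β h1 (finProdFinEquiv.symm t)
    rwa [Equiv.apply_symm_apply] at h2
  have hclaim : ∀ d : ℕ, (∀ k m, d ≤ m → (p k).coeff m = 0) → p = 0 := by
    intro d
    induction d with
    | zero =>
      intro h
      funext k
      ext m
      exact h k m (Nat.zero_le m)
    | succ d ih =>
      intro h
      apply ih
      have h1 := top_zero (B := B) (K := K) Subtype.val_injective E g f hfg hE u ⟨y, hy⟩ hfy d p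
        (fun k m hm => h k m hm) h0
      intro k m hm
      rcases Nat.eq_or_lt_of_le hm with h2 | h2
      · rw [← h2]
        exact h1 k
      · exact h k m h2
  refine hclaim ((Finset.univ.sup fun k => (p k).natDegree) + 1) fun k m hm => ?_
  apply coeff_eq_zero_of_natDegree_lt
  have h1 : (p k).natDegree ≤ Finset.univ.sup fun k => (p k).natDegree :=
    Finset.le_sup (f := fun k => (p k).natDegree) (Finset.mem_univ k)
  omega

end Pool.Agent.CPT.H95
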